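import Mathlib
import Pool.Agent.X207.KL3

set_option autoImplicit false

/-!
# MP_13c559_an, Q1: `ln(k+2)/k!` is a multiplier sequence

Idea. Let `Y_N(x) = ∑ (-1)^k C(N,k) x^k / (N^k k!)` (a scaled Laguerre polynomial). The function
`W = x Y' - x Y/N` satisfies `W' = -(1+1/N) Y` and a Sonine-type energy shows that `|W(λ)| ≥ |W(x)|`
for `0 ≤ x ≤ λ` at every zero `λ` of `Y_N`. It follows that for every `a ≥ 0` the sum
`∑ b_k λ^k/(k+2+a)` has the sign of `-W(λ)`, so that `∑ b_k λ^k ln(k+2)` has the sign of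
`W(λ) = λ Y_N'(λ)` at each zero `λ`; hence the Jensen polynomials of `ln(k+2)/k!` are real-rooted
with zeros interlacing those of `Y_N`. The Schur–Szegő composition theorem gives the multiplier
property.
-/

open Polynomial

namespace Pool.Agent.Results.MP_13c559_an.LogSeq

/-- `γ` is a (classical) multiplier sequence: for every (nonzero) real polynomial all of whose
complex zeros are real, the polynomial `∑ γ_k a_k x^k` also has only real zeros. -/
def IsMultiplierSeq (γ : ℕ → ℝ) : Prop :=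
  ∀ p : ℝ[X], p ≠ 0 → (∀ z : ℂ, aeval z p = 0 → z.im = 0) →
    ((∑ k ∈ Finset.range (p.natDegree + 1), C (γ k * p.coeff k) * X ^ k : ℝ[X]) ≠ 0 ∧
    ∀ z : ℂ, aeval z (∑ k ∈ Finset.range (p.natDegree + 1), C (γ k * p.coeff k) * X ^ k : ℝ[X]) = 0 →
      z.im = 0)

/-- Q1 has a positive answer: `(ln(k+2)/k!)` is a multiplier sequence. -/
theorem result : IsMultiplierSeq (fun k => Real.log ((k : ℝ) + 2) / (Nat.factorial k : ℝ)) := by
  intro p hp0 hp
  have hsp := Pool.Agent.H635Z.splits_of_real p hp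
  have hpos : ∀ k : ℕ, 0 < Real.log ((k : ℝ) + 2) := by
    intro k
    apply Real.log_pos
    have : (0 : ℝ) ≤ k := Nat.cast_nonneg k
    linarith
  have h := Pool.Agent.X207.KL.multiplier (fun k => Real.log ((k : ℝ) + 2)) hpos
    (fun N hN => Pool.Agent.X207.KL.log_splits hN) p hsp
  have hne : (∑ k ∈ Finset.range (p.natDegree + 1),
      C (Real.log ((k : ℝ) + 2) / (Nat.factorial k : ℝ) * p.coeff k) * X ^ k : ℝ[X]) ≠ 0 := by
    intro h0
    have h1 := congrArg (fun q : ℝ[X] => q.coeff p.natDegree) h0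
    simp only [finsetSum_coeff, coeff_C_mul, coeff_X_pow, mul_ite, mul_one, mul_zero,
      coeff_zero] at h1
    rw [Finset.sum_ite_eq, if_pos (by simp)] at h1
    have h2 : p.coeff p.natDegree ≠ 0 := by
      rw [coeff_natDegree]; exact leadingCoeff_ne_zero.mpr hp0
    have h3 := hpos p.natDegree
    have h4 : (0 : ℝ) < (Nat.factorial p.natDegree : ℝ) := by positivity
    have h5 : Real.log ((p.natDegree : ℝ) + 2) / (Nat.factorial p.natDegree : ℝ) ≠ 0 :=
      (div_pos h3 h4).ne'
    exact (mul_ne_zero h5 h2) h1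
  refine ⟨hne, fun z hz => Pool.Agent.H635Z.real_of_splits _ h hne z hz⟩

end Pool.Agent.Results.MP_13c559_an.LogSeq
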